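import Pool.Agent.H43.QO.TargetsB

/-!
# Board qo_modules (MP_c62aed_lc), module HB: weights for the clause constraints
-/

set_option autoImplicit false

namespace Pool.Agent.H39.QO

open Finset Matrix Pool.Agent.H43.QO

theorem lmi_comb {d o : ℕ} (B0 : Matrix (Fin o) (Fin o) ℝ) (B : Fin d → Matrix (Fin o) (Fin o) ℝ)
    (y y' : Fin d → ℝ) (a b : ℝ) (hab : a + b = 1) :
    B0 + ∑ k, (a • y + b • y') k • B k =
      a • (B0 + ∑ k, y k • B k) + b • (B0 + ∑ k, y' k • B k) := by
  have h1 : ∑ k, (a • y + b • y') k • B k = a • ∑ k, y k • B k + b • ∑ k, y' k • B k := by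
    rw [smul_sum, smul_sum, ← sum_add_distrib]
    refine sum_congr rfl (fun k _ => ?_)
    rw [Pi.add_apply, Pi.smul_apply, Pi.smul_apply, add_smul, smul_assoc, smul_assoc]
  have h2 : B0 = a • B0 + b • B0 := by rw [← add_smul, hab, one_smul]
  rw [h1, smul_add, smul_add]
  nth_rewrite 1 [h2]
  abel

theorem loss_comb {n : ℕ} (P : Pool n) (t : Fin P.nc) (y y' : Fin P.dim → ℝ) (a b : ℝ)
    (hab : a + b = 1) : P.loss t (a • y + b • y') = a * P.loss t y + b * P.loss t y' := by
  unfold Pool.loss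
  have h1 : ∑ k, P.w t k * (a • y + b • y') k =
      a * ∑ k, P.w t k * y k + b * ∑ k, P.w t k * y' k := by
    rw [mul_sum, mul_sum, ← sum_add_distrib]
    refine sum_congr rfl (fun k _ => ?_)
    rw [Pi.add_apply, Pi.smul_apply, Pi.smul_apply, smul_eq_mul, smul_eq_mul]
    ring
  rw [h1]
  have h2 : P.w0 t = a * P.w0 t + b * P.w0 t := by rw [← add_mul, hab, one_mul]
  nth_rewrite 1 [h2]
  ring

theorem pf_HB : S_HB := by
  intro n P I T de hcell hinf
  obtain ⟨x, hx⟩ := hcell
  have hxI : ∀ i ∈ I, (P.B0 i + ∑ k, P.pt x k • P.B i k).PosSemidef := fun i _ => P.feas x hx i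
  set K1 : Set (Fin P.nc → ℝ) := {v | ∃ y : Fin P.dim → ℝ,
    (∀ i ∈ I, (P.B0 i + ∑ k, y k • P.B i k).PosSemidef) ∧ ∀ t ∈ T, P.loss t y ≤ v t} with hK1
  set K2 : Set (Fin P.nc → ℝ) := {v | ∀ t ∈ T, v t < de} with hK2
  have hc1 : Convex ℝ K1 := by
    rintro v ⟨y, hy, hv⟩ v' ⟨y', hy', hv'⟩ a b ha hb hab
    refine ⟨a • y + b • y', fun i hi => ?_, fun t ht => ?_⟩
    · rw [lmi_comb _ _ _ _ _ _ hab]
      exact ((hy i hi).smul ha).add ((hy' i hi).smul hb)
    · rw [loss_comb P t y y' a b hab]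
      show a * P.loss t y + b * P.loss t y' ≤ a * v t + b * v' t
      have h1 := mul_le_mul_of_nonneg_left (hv t ht) ha
      have h2 := mul_le_mul_of_nonneg_left (hv' t ht) hb
      linarith
  have hc2 : Convex ℝ K2 := by
    intro v hv v' hv' a b ha hb hab t ht
    show a * v t + b * v' t < de
    have h1 := hv t ht
    have h2 := hv' t ht
    rcases eq_or_lt_of_le ha with h0 | h0
    · have hb1 : b = 1 := by linarith
      rw [← h0, hb1]
      linarith
    · have h3 : a * v t < a * de := mul_lt_mul_of_pos_left h1 h0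
      have h4 : b * v' t ≤ b * de := mul_le_mul_of_nonneg_left h2.le hb
      have h5 : a * de + b * de = de := by rw [← add_mul, hab, one_mul]
      linarith
  have ho2 : IsOpen K2 := by
    have : K2 = ⋂ t ∈ T, {v : Fin P.nc → ℝ | v t < de} := by
      ext v
      simp [hK2]
    rw [this]
    exact isOpen_biInter_finset (fun t _ => isOpen_lt (continuous_apply t) continuous_const)
  have hdisj : Disjoint K2 K1 := by
    rw [Set.disjoint_left]
    rintro v hv ⟨y, hy, hvy⟩
    obtain ⟨t, ht, h⟩ := hinf y hy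
    have h1 := hv t ht
    have h2 := hvy t ht
    linarith
  obtain ⟨f, u, hf2, hf1⟩ := geometric_hahn_banach_open hc2 ho2 hc1 hdisj
  set c : Fin P.nc → ℝ := fun t => f (fun j => if t = j then 1 else 0) with hc
  have hf : ∀ v : Fin P.nc → ℝ, f v = ∑ t, v t * c t := by
    intro v
    have h := LinearMap.pi_apply_eq_sum_univ (f : (Fin P.nc → ℝ) →ₗ[ℝ] ℝ) v
    exact h
  have hM : ∀ (t : Fin P.nc) (M : ℝ), (M ≤ 0 ∨ t ∉ T) → (de - 1) * ∑ s, c s + M * c t < u := by
    intro t M hMt
    have h1 : (fun s => (de - 1) + if s = t then M else 0) ∈ K2 := by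
      intro s hs
      show (de - 1) + (if s = t then M else 0) < de
      split_ifs with h
      · rcases hMt with h0 | h0
        · linarith
        · exact absurd (h ▸ hs) h0
      · linarith
    have h2 := hf2 _ h1
    rw [hf] at h2
    have h3 : ∑ s, ((de - 1) + if s = t then M else 0) * c s = (de - 1) * ∑ s, c s + M * c t := by
      simp only [add_mul, sum_add_distrib, ← mul_sum, ite_mul, zero_mul, sum_ite_eq', mem_univ,
        if_true]
    rwa [h3] at h2
  have hbd : ∀ t : Fin P.nc, (∀ M : ℝ, M ≤ 0 → (de - 1) * ∑ s, c s + M * c t < u) → 0 ≤ c t := by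
    intro t h
    by_contra hcon
    have hneg : c t < 0 := not_le.1 hcon
    set R : ℝ := |u - (de - 1) * ∑ s, c s| + 1 with hR
    have hR0 : 0 < R := by positivity
    have h1 := h (R / c t) (div_nonpos_of_nonneg_of_nonpos hR0.le hneg.le)
    rw [div_mul_cancel₀ _ hneg.ne] at h1
    have h2 := le_abs_self (u - (de - 1) * ∑ s, c s)
    linarith
  have hcnn : ∀ t, 0 ≤ c t := fun t => hbd t (fun M hM0 => hM t M (Or.inl hM0))
  have hcz : ∀ t, t ∉ T → c t = 0 := by
    intro t ht
    by_contra hne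
    have hpos : 0 < c t := lt_of_le_of_ne (hcnn t) (Ne.symm hne)
    set R : ℝ := |u - (de - 1) * ∑ s, c s| + 1 with hR
    have h1 := hM t (R / c t) (Or.inr ht)
    rw [div_mul_cancel₀ _ hpos.ne'] at h1
    have h2 := le_abs_self (u - (de - 1) * ∑ s, c s)
    linarith
  have hloss : ∀ y : Fin P.dim → ℝ, (∀ i ∈ I, (P.B0 i + ∑ k, y k • P.B i k).PosSemidef) →
      u ≤ ∑ t, P.loss t y * c t := by
    intro y hy
    rw [← hf (fun t => P.loss t y)]
    exact hf1 _ ⟨y, hy, fun t _ => le_refl _⟩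
  have hconst : ∀ e : ℝ, e < de → e * ∑ s, c s < u := by
    intro e he
    have h1 : (fun _ : Fin P.nc => e) ∈ K2 := fun t _ => he
    have h2 := hf2 _ h1
    rw [hf, ← mul_sum] at h2
    exact h2
  have hCpos : 0 < ∑ s, c s := by
    rcases eq_or_lt_of_le (sum_nonneg (fun t _ => hcnn t) : 0 ≤ ∑ s, c s) with h0 | h0
    · exfalso
      have hall : ∀ t ∈ univ, c t = 0 := (sum_eq_zero_iff_of_nonneg (fun t _ => hcnn t)).1 h0.symm
      have h1 := hconst (de - 1) (by linarith)
      rw [← h0, mul_zero] at h1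
      have h2 := hloss (P.pt x) hxI
      rw [sum_eq_zero (fun t ht => by rw [hall t ht, mul_zero])] at h2
      linarith
    · exact h0
  have hdeu : de * ∑ s, c s ≤ u := by
    by_contra hcon
    have h1 : u < de * ∑ s, c s := not_le.1 hcon
    have h2 : u / ∑ s, c s < de := (div_lt_iff₀ hCpos).2 h1
    have h3 := hconst (u / ∑ s, c s) h2
    rw [div_mul_cancel₀ _ hCpos.ne'] at h3
    exact lt_irrefl _ h3
  refine ⟨fun t => c t / ∑ s, c s, fun t => div_nonneg (hcnn t) hCpos.le, fun t ht => ?_, ?_,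
    fun y hy => ?_⟩
  · show c t / ∑ s, c s = 0
    rw [hcz t ht, zero_div]
  · rw [← sum_div]
    exact div_self hCpos.ne'
  · have h1 := hdeu.trans (hloss y hy)
    have h2 : ∑ t, c t / (∑ s, c s) * P.loss t y = (∑ t, P.loss t y * c t) / ∑ s, c s := by
      rw [sum_div]
      exact sum_congr rfl (fun t _ => by ring)
    show de ≤ ∑ t, c t / (∑ s, c s) * P.loss t y
    rw [h2, le_div_iff₀ hCpos]
    exact h1

end Pool.Agent.H39.QO
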